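import Mathlib
import Pool.Agent.H77.TF.Stm4
import Pool.Agent.H27.TF.Pl3

/-!
# Project TD, module EVD (helper66): evaluation at the missed points
-/

set_option autoImplicit false

open MvPolynomial Module

namespace Pool.Agent.H66.TD

open Pool.Agent.H77.TF Pool.Agent.H27.TF

theorem prop_of_orth {K : Type} [Field K] (p x : Fin 3 → K) (hp : p ≠ 0)
    (h : ∀ a : Fin 3 → K, a ⬝ᵥ p = 0 → a ⬝ᵥ x = 0) : ∃ c : K, x = c • p := by
  classical
  obtain ⟨m, hm⟩ := Function.ne_iff.1 hp
  rw [Pi.zero_apply] at hm
  have h5 : ∀ i, p m * x i = p i * x m := by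
    intro i
    have h6 := h (p m • Pi.single i 1 - p i • Pi.single m 1) (by
      rw [sub_dotProduct, smul_dotProduct, smul_dotProduct, single_dotProduct,
        single_dotProduct, smul_eq_mul, smul_eq_mul]
      ring)
    rw [sub_dotProduct, smul_dotProduct, smul_dotProduct, single_dotProduct,
        single_dotProduct, smul_eq_mul, smul_eq_mul] at h6
    linear_combination h6
  refine ⟨x m / p m, funext fun i => ?_⟩
  rw [Pi.smul_apply, smul_eq_mul]
  field_simp
  linear_combination h5 i

theorem eval_smul_hom {K : Type} [Field K] {d : ℕ} (f : MvPolynomial (Fin 3) K)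
    (hf : f.IsHomogeneous d) (c : K) (p : Fin 3 → K) :
    eval (c • p) f = c ^ d * eval p f := by
  rw [eval_eq, eval_eq, Finset.mul_sum]
  refine Finset.sum_congr rfl fun m hm => ?_
  have h1 : ∑ i, m i = d := by
    have := hf (mem_support_iff.1 hm)
    rw [Finsupp.weight_apply, Finsupp.sum_fintype _ _ (by simp)] at this
    simpa using this
  have h2 : ∀ (v : Fin 3 → K), ∏ i ∈ m.support, v i ^ m i = ∏ i, v i ^ m i := fun v =>
    Finset.prod_subset (Finset.subset_univ _) fun i _ hi => by
      rw [Finsupp.notMem_support_iff.1 hi, pow_zero]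
  rw [h2, h2]
  have h3 : ∏ i, (c • p) i ^ m i = c ^ d * ∏ i, p i ^ m i := by
    rw [← h1, ← Finset.prod_pow_eq_pow_sum, ← Finset.prod_mul_distrib]
    exact Finset.prod_congr rfl fun i _ => by rw [Pi.smul_apply, smul_eq_mul, mul_pow]
  rw [h3]
  ring

theorem eval_lin {K : Type} [Field K] (w p : Fin 3 → K) : eval p (lin w) = w ⬝ᵥ p := by
  simp [lin, dotProduct]

theorem lin_hom {K : Type} [Field K] (w : Fin 3 → K) : (lin w).IsHomogeneous 1 := by
  unfold lin
  exact IsHomogeneous.sum _ _ _ fun i _ => isHomogeneous_C_mul_X _ _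

theorem evd (hDIM : S_DIM) : S_EVD := by
  classical
  intro K _ _ ν _ A d
  have hfinS : Finite (Submodule K (Fin 3 → K)) :=
    Finite.of_injective (fun S : Submodule K (Fin 3 → K) => (S : Set (Fin 3 → K)))
      SetLike.coe_injective
  let P := {W : Submodule K (Fin 3 → K) // finrank K W = 2 ∧ ∀ i, A i ∉ W}
  have hPf : Finite P := inferInstance
  let _ : Fintype P := Fintype.ofFinite _
  have hP : uncD A = Fintype.card P := Nat.card_eq_fintype_card
  choose rep hrep0 hrep using fun W : P => exists_normal W.1 W.2.1
  have hrepPts : ∀ W : P, rep W ∈ Pts A := fun W i h => W.2.2 i ((hrep W (A i)).2 h)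
  have hPts : ∀ x ∈ Pts A, ∃ (W : P) (c : K), x = c • rep W := by
    intro x hx
    have hx0 : x ≠ 0 := by
      rintro rfl
      obtain ⟨i⟩ := ‹Nonempty ν›
      exact hx i (by simp)
    obtain ⟨W, hW, hWx⟩ := exists_plane x hx0
    refine ⟨⟨W, hW, fun i hi => hx i ((hWx (A i)).1 hi)⟩, ?_⟩
    refine prop_of_orth _ _ (hrep0 _) fun a ha => ?_
    exact (hWx a).1 ((hrep _ a).2 ha)
  obtain ⟨hfin, hdim⟩ := hDIM K d
  let ev : homogeneousSubmodule (Fin 3) K d →ₗ[K] (P → K) :=
    { toFun := fun f W => eval (rep W) f.1
      map_add' := fun f g => by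
        funext W
        simp
      map_smul' := fun c f => by
        funext W
        simp [smul_eval] }
  have hmap : (LinearMap.ker ev).map (homogeneousSubmodule (Fin 3) K d).subtype = Hv A d := by
    ext f
    rw [Submodule.mem_map]
    constructor
    · rintro ⟨g, hg, rfl⟩
      refine ⟨g.2, fun x hx => ?_⟩
      obtain ⟨W, c, rfl⟩ := hPts x hx
      have h1 : eval (rep W) g.1 = 0 := congrFun (LinearMap.mem_ker.1 hg) W
      rw [Submodule.subtype_apply, eval_smul_hom g.1 g.2 c (rep W), h1, mul_zero]
    · rintro ⟨hf, hf'⟩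
      refine ⟨⟨f, hf⟩, ?_, rfl⟩
      rw [LinearMap.mem_ker]
      funext W
      exact hf' _ (hrepPts W)
  have hker : finrank K (LinearMap.ker ev) = finrank K (Hv A d) := by
    rw [← hmap]
    exact (Submodule.equivMapOfInjective _ (Submodule.subtype_injective _) _).finrank_eq
  have hrn := LinearMap.finrank_range_add_finrank_ker ev
  rw [hker, hdim] at hrn
  constructor
  · have h1 : finrank K (LinearMap.range ev) ≤ uncD A := by
      rw [hP, ← Module.finrank_fintype_fun_eq_card (R := K)]
      exact Submodule.finrank_le _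
    omega
  · intro hle
    have htop : LinearMap.range ev = ⊤ := by
      have hsep : ∀ W : P, ∃ f : homogeneousSubmodule (Fin 3) K d,
          ev f = Pi.single W 1 := by
        intro W
        have hw : ∀ W' : P, ∃ w : Fin 3 → K, w ⬝ᵥ rep W ≠ 0 ∧
            (W' ≠ W → w ⬝ᵥ rep W' = 0) := by
          intro W'
          by_cases hWW : W' = W
          · obtain ⟨i⟩ := ‹Nonempty ν›
            exact ⟨A i, fun h => W.2.2 i ((hrep W (A i)).2 h), fun h => absurd hWW h⟩
          · have hnle : ¬ W'.1 ≤ W.1 := by
              intro hle'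
              exact hWW (Subtype.ext (Submodule.eq_of_le_of_finrank_eq hle'
                (W'.2.1.trans W.2.1.symm)))
            obtain ⟨w, hw1, hw2⟩ := Set.not_subset.1 hnle
            exact ⟨w, fun h => hw2 ((hrep W w).2 h), fun _ => (hrep W' w).1 hw1⟩
        choose w hw1 hw2 using hw
        let F : MvPolynomial (Fin 3) K :=
          (∏ W' ∈ Finset.univ.erase W, lin (w W')) * lin (w W) ^ (d + 1 - Fintype.card P)
        have hF : F.IsHomogeneous d := by
          have h1 : (∏ W' ∈ Finset.univ.erase W, lin (w W')).IsHomogeneous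
              (∑ _W' ∈ Finset.univ.erase W, 1) :=
            IsHomogeneous.prod _ _ _ fun W' _ => lin_hom (w W')
          have h2 : (lin (w W) ^ (d + 1 - Fintype.card P)).IsHomogeneous
              (1 * (d + 1 - Fintype.card P)) := (lin_hom (w W)).pow _
          have h3 := h1.mul h2
          have h4 : (∑ _W' ∈ Finset.univ.erase W, 1) + 1 * (d + 1 - Fintype.card P) = d := by
            rw [Finset.sum_const, smul_eq_mul, mul_one,
              Finset.card_erase_of_mem (Finset.mem_univ _), Finset.card_univ]
            have h5 : 0 < Fintype.card P := Fintype.card_pos_iff.2 ⟨W⟩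
            rw [hP] at hle
            omega
          rw [h4] at h3
          exact h3
        have hFW : eval (rep W) F ≠ 0 := by
          rw [map_mul, map_prod, map_pow, eval_lin]
          refine mul_ne_zero (Finset.prod_ne_zero_iff.2 fun W' _ => ?_) (pow_ne_zero _ (hw1 W))
          rw [eval_lin]
          exact hw1 W'
        have hFW' : ∀ W' ≠ W, eval (rep W') F = 0 := by
          intro W' hne
          rw [map_mul, map_prod, Finset.prod_eq_zero (i := W')
            (Finset.mem_erase.2 ⟨hne, Finset.mem_univ _⟩), zero_mul]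
          rw [eval_lin]
          exact hw2 W' hne
        refine ⟨(eval (rep W) F)⁻¹ • ⟨F, hF⟩, ?_⟩
        rw [map_smul]
        funext W'
        by_cases h : W' = W
        · subst h
          rw [Pi.single_eq_same, Pi.smul_apply, smul_eq_mul]
          exact inv_mul_cancel₀ hFW
        · rw [Pi.single_eq_of_ne h, Pi.smul_apply, smul_eq_mul]
          exact mul_eq_zero_of_right _ (hFW' W' h)
      choose f hf using hsep
      rw [LinearMap.range_eq_top]
      intro y
      refine ⟨∑ W, y W • f W, ?_⟩
      rw [map_sum]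
      simp only [map_smul, hf]
      funext W'
      rw [Finset.sum_apply, Finset.sum_eq_single W']
      · rw [Pi.smul_apply, Pi.single_eq_same, smul_eq_mul, mul_one]
      · intro W _ hne
        rw [Pi.smul_apply, Pi.single_eq_of_ne (Ne.symm hne), smul_zero]
      · intro h
        exact absurd (Finset.mem_univ _) h
    rw [htop, finrank_top, Module.finrank_fintype_fun_eq_card] at hrn
    rw [hP]
    exact hrn.symm

end Pool.Agent.H66.TD
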