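import Pool.Agent.H79.TD.Stm4

/-!
Project EX (helper79), module SPD: spreading out.
-/

set_option autoImplicit false

open MvPolynomial Module Pool.Agent.H77.TF Pool.Agent.H77.GR Pool.Agent.H79.TD

namespace Pool.Agent.H66.TD

theorem sp_map_linR {R R' : Type} [CommRing R] [CommRing R'] (f : R →+* R') (a : Fin 3 → R) :
    MvPolynomial.map f (linR a) = linR (fun j => f (a j)) := by
  simp [linR]

theorem sp_map_evlR {R R' : Type} [CommRing R] [CommRing R'] (f : R →+* R') (a : Fin 3 → R)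
    (v : Fin 3 → MvPolynomial (Fin 3) R) :
    MvPolynomial.map f (evlR a v) = evlR (fun j => f (a j)) (fun j => MvPolynomial.map f (v j)) := by
  simp [evlR]

/-- an element with an inverse in the subring is not killed -/
theorem sp_unit {F : Type} [Field F] (R : Subring F) (x : R) (hx : (x : F) ≠ 0)
    (hi : (x : F)⁻¹ ∈ R) : IsUnit x := by
  refine IsUnit.of_mul_eq_one ⟨(x : F)⁻¹, hi⟩ ?_
  apply Subtype.ext
  push_cast
  exact mul_inv_cancel₀ hx

theorem sp_ne {F : Type} [Field F] (R : Subring F) {k : Type} [Field k] (f : R →+* k) (x : R)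
    (hx : (x : F) ≠ 0) (hi : (x : F)⁻¹ ∈ R) : f x ≠ 0 :=
  ((sp_unit R x hx hi).map f).ne_zero

/-- two vectors of a simple arrangement have a nonzero minor -/
theorem sp_minor {F : Type} [Field F] {u v : Fin 3 → F} (hv : v ≠ 0)
    (h : ∀ c : F, u ≠ c • v) : ∃ p q, u p * v q - u q * v p ≠ 0 := by
  by_contra hcon
  push Not at hcon
  obtain ⟨q, hq⟩ := Function.ne_iff.1 hv
  apply h (u q / v q)
  funext p
  have h1 := hcon p q
  have hq' : v q ≠ 0 := hq
  rw [Pi.smul_apply, smul_eq_mul]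
  field_simp
  linear_combination h1

theorem sp_smp {F : Type} [Field F] {n : ℕ} {A : Fin n → Fin 3 → F} (hA : Simple A)
    (R : Subring F) (A₀ : Fin n → Fin 3 → R) (h0 : ∀ i j, (A₀ i j : F) = A i j)
    (hinv : ∀ i j, (A i j)⁻¹ ∈ R) (hmin : ∀ i j p q, (A i p * A j q - A i q * A j p)⁻¹ ∈ R)
    {k : Type} [Field k] (f : R →+* k) : Simple (mapA f A₀) := by
  constructor
  · intro i hi
    obtain ⟨j, hj⟩ := Function.ne_iff.1 (hA.1 i)
    have h1 : f (A₀ i j) ≠ 0 := by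
      apply sp_ne R f
      · rw [h0]
        exact hj
      · rw [h0]
        exact hinv i j
    exact h1 (congrFun hi j)
  · intro i j hij c hc
    obtain ⟨p, q, hpq⟩ := sp_minor (hA.1 j) (hA.2 i j hij)
    have h1 : f (A₀ i p * A₀ j q - A₀ i q * A₀ j p) ≠ 0 := by
      apply sp_ne R f
      · push_cast
        rw [h0, h0, h0, h0]
        exact hpq
      · push_cast
        rw [h0, h0, h0, h0]
        exact hmin i j p q
    apply h1
    have hp : f (A₀ i p) = c * f (A₀ j p) := congrFun hc p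
    have hq : f (A₀ i q) = c * f (A₀ j q) := congrFun hc q
    rw [map_sub, map_mul, map_mul, hp, hq]
    ring

theorem sp_det {F : Type} [Field F] {n : ℕ} {A : Fin n → Fin 3 → F}
    (R : Subring F) (A₀ : Fin n → Fin 3 → R) (h0 : ∀ i j, (A₀ i j : F) = A i j)
    (hdet : ∀ i j l, ((Matrix.of ![A i, A j, A l]).det)⁻¹ ∈ R) (m : Ideal R) (hm : m ≠ ⊤)
    (i j l : Fin n) (hd : (Matrix.of ![A₀ i, A₀ j, A₀ l]).det ∈ m) :
    (Matrix.of ![A₀ i, A₀ j, A₀ l]).det = 0 := by
  by_contra hne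
  have e1 : (((Matrix.of ![A₀ i, A₀ j, A₀ l]).det : R) : F) = (Matrix.of ![A i, A j, A l]).det := by
    rw [Matrix.det_fin_three, Matrix.det_fin_three]
    simp only [Matrix.of_apply, Matrix.cons_val]
    push_cast
    simp only [h0]
  apply hm
  apply Ideal.eq_top_of_isUnit_mem m hd
  apply sp_unit R
  · intro h1
    exact hne (Subtype.ext h1)
  · rw [e1]
    exact hdet i j l

theorem sp_lift {F : Type} [Field F] (R : Subring F) (p : MvPolynomial (Fin 3) F)
    (hp : ∀ d, p.coeff d ∈ R) : ∃ p₀ : MvPolynomial (Fin 3) R, MvPolynomial.map R.subtype p₀ = p := by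
  refine ⟨∑ d ∈ p.support, monomial d ⟨p.coeff d, hp d⟩, ?_⟩
  rw [map_sum]
  conv_rhs => rw [p.as_sum]
  refine Finset.sum_congr rfl fun d _ => ?_
  rw [map_monomial]
  rfl

theorem sp_inj {F : Type} [Field F] (R : Subring F) :
    Function.Injective (MvPolynomial.map (σ := Fin 3) R.subtype) :=
  MvPolynomial.map_injective _ Subtype.val_injective

set_option maxHeartbeats 400000 in
/-- SPD -/
theorem t_SPD (hRNG : S_RNG) : S_SPD := by
  classical
  intro F _ n A B e a hA hB hD ha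
  obtain ⟨V, c, hc, hhom, hdvd, hdet⟩ := hD
  choose G hG using hdvd
  let co : MvPolynomial (Fin 3) F → Finset F := fun p => p.support.image fun d => p.coeff d
  let T : (Fin n → Fin 3 → F) → Finset F := fun A =>
    (Finset.univ.image fun x : Fin n × Fin 3 => A x.1 x.2) ∪
    (Finset.univ.image fun x : Fin n × Fin 3 => (A x.1 x.2)⁻¹) ∪
    (Finset.univ.image fun x : Fin n × Fin n × Fin 3 × Fin 3 =>
      (A x.1 x.2.2.1 * A x.2.1 x.2.2.2 - A x.1 x.2.2.2 * A x.2.1 x.2.2.1)⁻¹) ∪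
    (Finset.univ.image fun x : Fin n × Fin n × Fin n =>
      ((Matrix.of ![A x.1, A x.2.1, A x.2.2]).det)⁻¹)
  let s : Finset F := T A ∪ T B ∪ ((Finset.range a).image fun l : ℕ => (l : F)⁻¹) ∪ {c, c⁻¹} ∪
    (Finset.univ.biUnion fun x : Fin 3 × Fin 3 => co (V x.1 x.2)) ∪
    (Finset.univ.biUnion fun x : Fin 3 × Fin n => co (G x.1 x.2))
  obtain ⟨R, hsR, hfin, hjac⟩ := hRNG F s
  have hs : ∀ x, x ∈ s → x ∈ R := fun x hx => hsR hx
  have hTA : ∀ x, x ∈ T A → x ∈ R := fun x hx => hs x (by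
    simp only [s, Finset.mem_union]; exact Or.inl (Or.inl (Or.inl (Or.inl (Or.inl hx)))))
  have hTB : ∀ x, x ∈ T B → x ∈ R := fun x hx => hs x (by
    simp only [s, Finset.mem_union]; exact Or.inl (Or.inl (Or.inl (Or.inl (Or.inr hx)))))
  have hl : ∀ l : ℕ, l < a → (l : F)⁻¹ ∈ R := fun l hl => hs _ (by
    simp only [s, Finset.mem_union]
    exact Or.inl (Or.inl (Or.inl (Or.inr (Finset.mem_image.2 ⟨l, Finset.mem_range.2 hl, rfl⟩)))))
  have hcR : c ∈ R := hs _ (by
    simp only [s, Finset.mem_union]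
    exact Or.inl (Or.inl (Or.inr (by simp))))
  have hcR' : c⁻¹ ∈ R := hs _ (by
    simp only [s, Finset.mem_union]
    exact Or.inl (Or.inl (Or.inr (by simp))))
  have hco : ∀ (p : MvPolynomial (Fin 3) F), (∀ x ∈ co p, x ∈ R) → ∀ d, p.coeff d ∈ R := by
    intro p hp d
    by_cases hd : p.coeff d = 0
    · rw [hd]
      exact R.zero_mem
    · exact hp _ (Finset.mem_image.2 ⟨d, mem_support_iff.2 hd, rfl⟩)
  have hVR : ∀ j i d, (V j i).coeff d ∈ R := fun j i => hco _ fun x hx => hs x (by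
    simp only [s, Finset.mem_union]
    exact Or.inl (Or.inr (Finset.mem_biUnion.2 ⟨(j, i), Finset.mem_univ _, hx⟩)))
  have hGR : ∀ j i d, (G j i).coeff d ∈ R := fun j i => hco _ fun x hx => hs x (by
    simp only [s, Finset.mem_union]
    exact Or.inr (Finset.mem_biUnion.2 ⟨(j, i), Finset.mem_univ _, hx⟩))
  have hT1 : ∀ (A : Fin n → Fin 3 → F), (∀ x, x ∈ T A → x ∈ R) → ∀ i j, A i j ∈ R :=
    fun A h i j => h _ (by
      simp only [T, Finset.mem_union]
      exact Or.inl (Or.inl (Or.inl (Finset.mem_image.2 ⟨(i, j), Finset.mem_univ _, rfl⟩))))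
  have hT2 : ∀ (A : Fin n → Fin 3 → F), (∀ x, x ∈ T A → x ∈ R) → ∀ i j, (A i j)⁻¹ ∈ R :=
    fun A h i j => h _ (by
      simp only [T, Finset.mem_union]
      exact Or.inl (Or.inl (Or.inr (Finset.mem_image.2 ⟨(i, j), Finset.mem_univ _, rfl⟩))))
  have hT3 : ∀ (A : Fin n → Fin 3 → F), (∀ x, x ∈ T A → x ∈ R) → ∀ i j p q,
      (A i p * A j q - A i q * A j p)⁻¹ ∈ R :=
    fun A h i j p q => h _ (by
      simp only [T, Finset.mem_union]
      exact Or.inl (Or.inr (Finset.mem_image.2 ⟨(i, j, p, q), Finset.mem_univ _, rfl⟩)))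
  have hT4 : ∀ (A : Fin n → Fin 3 → F), (∀ x, x ∈ T A → x ∈ R) → ∀ i j l,
      ((Matrix.of ![A i, A j, A l]).det)⁻¹ ∈ R :=
    fun A h i j l => h _ (by
      simp only [T, Finset.mem_union]
      exact Or.inr (Finset.mem_image.2 ⟨(i, j, l), Finset.mem_univ _, rfl⟩))
  choose V₀ hV₀ using fun j i => sp_lift R (V j i) (hVR j i)
  choose G₀ hG₀ using fun j i => sp_lift R (G j i) (hGR j i)
  obtain ⟨A₀, hA₀⟩ : ∃ A₀ : Fin n → Fin 3 → R, ∀ i j, (A₀ i j : F) = A i j :=
    ⟨fun i j => ⟨A i j, hT1 A hTA i j⟩, fun _ _ => rfl⟩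
  obtain ⟨B₀, hB₀⟩ : ∃ B₀ : Fin n → Fin 3 → R, ∀ i j, (B₀ i j : F) = B i j :=
    ⟨fun i j => ⟨B i j, hT1 B hTB i j⟩, fun _ _ => rfl⟩
  obtain ⟨c₀, hc₀⟩ : ∃ c₀ : R, (c₀ : F) = c := ⟨⟨c, hcR⟩, rfl⟩
  have hcu : IsUnit c₀ := by
    apply sp_unit R
    · rw [hc₀]
      exact hc.ne_zero
    · rw [hc₀]
      exact hcR'
  have hmA : mapA R.subtype A₀ = A := by
    funext i j
    exact hA₀ i j
  have hmB : mapA R.subtype B₀ = B := by
    funext i j
    exact hB₀ i j
  have hAi : ∀ i, (fun j => R.subtype (A₀ i j)) = A i := fun i => congrFun hmA i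
  refine ⟨R, A₀, B₀, hmA, hmB, hfin, hjac, ⟨V₀, c₀, hcu, ?_, ?_, ?_⟩, ?_⟩
  · intro j i
    refine IsHomogeneous.of_map (f := R.subtype) Subtype.val_injective ?_
    rw [hV₀]
    exact hhom j i
  · intro j i
    refine ⟨G₀ j i, sp_inj R ?_⟩
    rw [map_mul, sp_map_evlR, sp_map_linR, hG₀, hAi]
    simp only [hV₀]
    exact hG j i
  · apply sp_inj R
    rw [map_mul, map_prod, map_C, RingHom.map_det]
    have e5 : (MvPolynomial.map R.subtype).mapMatrix (Matrix.of V₀) = Matrix.of V := by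
      ext1 j i
      rw [RingHom.mapMatrix_apply, Matrix.map_apply, Matrix.of_apply, Matrix.of_apply, hV₀]
    have e6 : R.subtype c₀ = c := hc₀
    rw [e5, hdet, e6]
    congr 1
    refine Finset.prod_congr rfl fun i _ => ?_
    rw [sp_map_linR, hAi]
  · intro m k _ f _ hm
    refine ⟨sp_smp hA R A₀ hA₀ (hT2 A hTA) (hT3 A hTA) f,
      sp_smp hB R B₀ hB₀ (hT2 B hTB) (hT3 B hTB) f,
      sp_det R A₀ hA₀ (hT4 A hTA) m hm.ne_top,
      sp_det R B₀ hB₀ (hT4 B hTB) m hm.ne_top, ?_⟩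
    intro l h0 h1
    have h2 : f (l : R) ≠ 0 := by
      apply sp_ne R f
      · push_cast
        exact ha l h0 h1
      · push_cast
        exact hl l h1
    rwa [map_natCast] at h2

end Pool.Agent.H66.TD
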